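import Pool.Agent.H54.CF.Rw
import Pool.Agent.H5.CG.Defs

/-!
PROJECT CG (MP_0d9ad5_pr). Random walk with steps `L v`, `v_{i0} = 2`, `v_i = 1` or `-1`, and the
polynomial damping function.
-/

set_option autoImplicit false

namespace H54CG

open H5DF H95LBD ENNReal H54CF

variable {d : ℕ}

/-- `(1 + |x| / L) ^ (-2)` -/
noncomputable def q1 (L : ℕ) (x : ℤ) : ℝ≥0∞ := ENNReal.ofReal (1 / (1 + |(x : ℝ)| / L) ^ 2)

/-- `q1` for the coordinates in `S`, `1` for the others. -/
noncomputable def fac (S : Finset (Fin d)) (L : ℕ) (i : Fin d) (x : ℤ) : ℝ≥0∞ :=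
  open Classical in if i ∈ S then q1 L x else 1

lemma abs_le_nm (z : V d) (i : Fin d) : |((z i : ℤ) : ℝ)| ≤ nm z := by
  have h := natAbs_le_nm z i
  have h2 : |((z i : ℤ) : ℝ)| = ((z i).natAbs : ℝ) := by
    rw [Nat.cast_natAbs]; simp
  rw [h2]
  exact_mod_cast h

lemma dmp_le_prod (S : Finset (Fin d)) (hS : S.card ≤ 8) (L : ℕ) (z : V d) :
    CG.dmp L z ≤ ∏ i, fac S L i (z i) := by
  classical
  have h1 : ∏ i, fac S L i (z i) = ∏ i ∈ S, q1 L (z i) := by
    unfold fac
    rw [Finset.prod_ite_mem]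
    congr 1
    · ext i
      simp
  rw [h1]
  have hpos : (1 : ℝ) ≤ 1 + (nm z : ℝ) / L := by
    have : (0 : ℝ) ≤ (nm z : ℝ) / L := by positivity
    linarith
  calc CG.dmp L z ≤ ∏ _i ∈ S, ENNReal.ofReal (1 / (1 + (nm z : ℝ) / L) ^ 2) := by
        rw [Finset.prod_const, ← ENNReal.ofReal_pow (by positivity)]
        unfold CG.dmp
        apply ENNReal.ofReal_le_ofReal
        rw [div_pow, one_pow, ← pow_mul]
        apply one_div_le_one_div_of_le (by positivity)
        exact pow_le_pow_right₀ hpos (by omega)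
    _ ≤ ∏ i ∈ S, q1 L (z i) := by
        refine Finset.prod_le_prod' fun i _ => ?_
        unfold q1
        apply ENNReal.ofReal_le_ofReal
        have h2 := abs_le_nm z i
        apply one_div_le_one_div_of_le (by positivity)
        gcongr

/-- `∑_k 4 / (1 + |k|)^2` over the integers -/
noncomputable def cq : ℝ≥0∞ := ∑' k : ℤ, ENNReal.ofReal (4 / (1 + |(k : ℝ)|) ^ 2)

lemma cq_lt_top : cq < ⊤ := by
  unfold cq
  have h1 : Summable fun k : ℤ => 4 / (1 + |(k : ℝ)|) ^ 2 := by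
    have h2 : Summable fun n : ℕ => 4 / (1 + (n : ℝ)) ^ 2 := by
      have h3 : Summable fun n : ℕ => 1 / (((n + 1 : ℕ) : ℝ)) ^ 2 :=
        (summable_nat_add_iff 1 (f := fun n : ℕ => 1 / ((n : ℝ)) ^ 2)).2
          (Real.summable_one_div_nat_pow.2 (by norm_num))
      refine (h3.mul_left 4).congr fun n => ?_
      push_cast
      rw [add_comm (1 : ℝ)]
      ring
    refine Summable.of_nat_of_neg ?_ ?_
    · simpa using h2
    · simpa using h2
  rw [← ENNReal.ofReal_tsum_of_nonneg (fun k => by positivity) h1]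
  exact ENNReal.ofReal_lt_top

lemma sum_q1 {L : ℕ} (hL : 1 ≤ L) (x : ℤ) : ∑' k : ℤ, q1 L (x + L * k) ≤ cq := by
  have hL0 : (0 : ℤ) < L := by exact_mod_cast hL
  have hLr : (0 : ℝ) < L := by exact_mod_cast hL
  have h1 : ∑' k : ℤ, q1 L (x + L * k) = ∑' k : ℤ, q1 L (x % L + L * k) := by
    rw [← (Equiv.addRight (x / L)).tsum_eq (fun k : ℤ => q1 L (x % L + L * k))]
    refine tsum_congr fun k => ?_
    congr 1
    simp only [Equiv.coe_addRight]
    have := Int.emod_add_mul_ediv x L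
    linarith [mul_add (L : ℤ) k (x / L)]
  rw [h1, cq]
  refine ENNReal.tsum_le_tsum fun k => ?_
  unfold q1
  apply ENNReal.ofReal_le_ofReal
  have h2 : 0 ≤ x % L := Int.emod_nonneg _ hL0.ne'
  have h3 : x % L < L := Int.emod_lt_of_pos _ hL0
  have h2' : (0 : ℝ) ≤ ((x % L : ℤ) : ℝ) := by exact_mod_cast h2
  have h3' : ((x % L : ℤ) : ℝ) < L := by exact_mod_cast h3
  have h4 : (L : ℝ) * (|(k : ℝ)| - 1) ≤ |((x % L + L * k : ℤ) : ℝ)| := by
    have e : (L : ℝ) * |(k : ℝ)| = |(L : ℝ) * k| := by rw [abs_mul, abs_of_pos hLr]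
    have h5 : |(L : ℝ) * k| ≤ |((x % L + L * k : ℤ) : ℝ)| + |((x % L : ℤ) : ℝ)| := by
      have : (L : ℝ) * k = ((x % L + L * k : ℤ) : ℝ) - ((x % L : ℤ) : ℝ) := by push_cast; ring
      rw [this]
      exact abs_sub _ _
    rw [abs_of_nonneg h2'] at h5
    nlinarith
  have h6 : |(k : ℝ)| - 1 ≤ |((x % L + L * k : ℤ) : ℝ)| / L := by
    rw [le_div_iff₀ hLr]
    linarith
  have h7 : 0 ≤ |((x % L + L * k : ℤ) : ℝ)| / L := by positivity
  have h8 : (1 + |(k : ℝ)|) / 2 ≤ 1 + |((x % L + L * k : ℤ) : ℝ)| / L := by linarith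
  have h9 : (0 : ℝ) < 1 + |(k : ℝ)| := by positivity
  calc 1 / (1 + |((x % L + L * k : ℤ) : ℝ)| / L) ^ 2 ≤ 1 / ((1 + |(k : ℝ)|) / 2) ^ 2 := by
        apply one_div_le_one_div_of_le (by positivity)
        exact pow_le_pow_left₀ (by positivity) h8 2
    _ = 4 / (1 + |(k : ℝ)|) ^ 2 := by
        field_simp
        norm_num

lemma A1_one (L : ℕ) (t : ℕ) (x : ℤ) : (A1 L)^[t] (fun _ => 1) x = 1 := by
  induction t generalizing x with
  | zero => rfl
  | succ t ih =>
    rw [Function.iterate_succ_apply', A1, ih, ih, one_add_one_eq_two,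
      ENNReal.inv_mul_cancel (by norm_num) (by norm_num)]

lemma A1_fac (S : Finset (Fin d)) {L : ℕ} (hL : 1 ≤ L) (i : Fin d) (t : ℕ) (x c : ℤ) :
    (A1 L)^[t] (fun y => fac S L i (y - c)) x ≤
      open Classical in if i ∈ S then bt t * cq else 1 := by
  classical
  unfold fac
  split
  · refine (A1_iter_le L _ t x).trans ?_
    gcongr
    refine le_trans (le_of_eq ?_) (sum_q1 hL (x - c))
    refine tsum_congr fun k => ?_
    congr 1
    ring
  · exact (A1_one L t x).le

/-- **Random walk estimate.** -/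
theorem rw_dmp (hd : 5 ≤ d) (i0 : Fin d) {L : ℕ} (hL : 1 ≤ L)
    {ι : Type*} (J : Finset ι) (c : ι → V d) (a : ℤ) (e : ι → ℤ) (he : Set.InjOn e J)
    (hc : ∀ j ∈ J, c j i0 = a + L * e j) (z : V d) :
    ∑' t : ℕ, (Av i0 L)^[t] (fun w => ∑ j ∈ J, CG.dmp L (w - c j)) z ≤ 2 * cq ^ 5 := by
  classical
  obtain ⟨S, hS1, hS2⟩ := Finset.exists_superset_card_eq (s := ({i0} : Finset (Fin d))) (n := 5)
    (by simp) (by simpa using hd)
  have hi0 : i0 ∈ S := hS1 (Finset.mem_singleton_self i0)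
  have h1 : ∀ t : ℕ, (Av i0 L)^[t] (fun w => ∑ j ∈ J, CG.dmp L (w - c j)) z ≤
      cq ^ 5 * bt t ^ 4 := by
    intro t
    rw [Av_iter_sum]
    calc ∑ j ∈ J, (Av i0 L)^[t] (fun w => CG.dmp L (w - c j)) z
        ≤ ∑ j ∈ J, (Av i0 L)^[t] (fun w => ∏ i, fac S L i (w i - c j i)) z :=
          Finset.sum_le_sum fun j _ => Av_iter_mono i0 L
            (fun w => dmp_le_prod S (by omega) L (w - c j)) t z
      _ = ∑ j ∈ J, fac S L i0 (z i0 + L * 2 * t - c j i0) *
          ∏ i ∈ Finset.univ.erase i0, (A1 L)^[t] (fun x => fac S L i (x - c j i)) (z i) := by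
          refine Finset.sum_congr rfl fun j _ => ?_
          rw [Av_iter_prod i0 L (fun i x => fac S L i (x - c j i)) t]
      _ ≤ ∑ j ∈ J, q1 L (z i0 + L * 2 * t - c j i0) * (bt t * cq) ^ 4 := by
          refine Finset.sum_le_sum fun j _ => ?_
          have h0 : fac S L i0 (z i0 + L * 2 * t - c j i0) = q1 L (z i0 + L * 2 * t - c j i0) := by
            unfold fac
            rw [if_pos hi0]
          rw [h0]
          gcongr
          calc ∏ i ∈ Finset.univ.erase i0, (A1 L)^[t] (fun x => fac S L i (x - c j i)) (z i)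
              ≤ ∏ i ∈ Finset.univ.erase i0, (if i ∈ S then bt t * cq else 1) := by
                refine Finset.prod_le_prod' fun i _ => ?_
                exact A1_fac S hL i t (z i) (c j i)
            _ = (bt t * cq) ^ 4 := by
                rw [Finset.prod_ite_mem, Finset.prod_const]
                congr 1
                rw [Finset.inter_comm, Finset.inter_erase, Finset.inter_univ,
                  Finset.card_erase_of_mem hi0, hS2]
      _ = (∑ j ∈ J, q1 L (z i0 + L * 2 * t - c j i0)) * (bt t * cq) ^ 4 := by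
          rw [Finset.sum_mul]
      _ ≤ cq * (bt t * cq) ^ 4 := by
          gcongr
          have h3 : ∑ j ∈ J, q1 L (z i0 + L * 2 * t - c j i0) =
              ∑ k ∈ J.image (fun j => -e j), q1 L ((z i0 + L * 2 * t - a) + L * k) := by
            rw [Finset.sum_image]
            · refine Finset.sum_congr rfl fun j hj => ?_
              rw [hc j hj]
              congr 1
              ring
            · intro x hx y hy hxy
              exact he hx hy (neg_injective hxy)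
          rw [h3]
          exact (ENNReal.sum_le_tsum _).trans (sum_q1 hL _)
      _ = cq ^ 5 * bt t ^ 4 := by ring
  calc ∑' t : ℕ, (Av i0 L)^[t] (fun w => ∑ j ∈ J, CG.dmp L (w - c j)) z
      ≤ ∑' t : ℕ, cq ^ 5 * bt t ^ 4 := ENNReal.tsum_le_tsum h1
    _ = cq ^ 5 * ∑' t : ℕ, bt t ^ 4 := ENNReal.tsum_mul_left
    _ ≤ cq ^ 5 * 2 := by gcongr; exact bt_pow_sum (d := 5) le_rfl
    _ = 2 * cq ^ 5 := mul_comm _ _

lemma dmp_neg (L : ℕ) (z : V d) : CG.dmp L (-z) = CG.dmp L z := by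
  unfold CG.dmp
  rw [nm_neg]

theorem rwm_dmp (hd : 5 ≤ d) (i0 : Fin d) {L : ℕ} (hL : 1 ≤ L)
    {ι : Type*} (J : Finset ι) (c : ι → V d) (a : ℤ) (e : ι → ℤ) (he : Set.InjOn e J)
    (hc : ∀ j ∈ J, c j i0 = a + L * e j) (z : V d) :
    ∑' t : ℕ, (Avm i0 L)^[t] (fun w => ∑ j ∈ J, CG.dmp L (w - c j)) z ≤ 2 * cq ^ 5 := by
  have h := rw_dmp hd i0 hL J (fun j => -c j) (-a) (fun j => -e j)
    (fun x hx y hy hxy => he hx hy (neg_injective hxy))
    (fun j hj => by
      show -(c j i0) = _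
      rw [hc j hj]
      ring) (-z)
  refine le_trans (le_of_eq ?_) h
  refine tsum_congr fun t => ?_
  rw [Avm_iter]
  have h1 : (fun w => ∑ j ∈ J, CG.dmp L (-w - c j)) = fun w => ∑ j ∈ J, CG.dmp L (w - -c j) := by
    funext w
    refine Finset.sum_congr rfl fun j _ => ?_
    rw [← dmp_neg]
    congr 1
    abel
  rw [h1]

end H54CG
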